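import Pool.Agent.Helper22_DEN2.Stmt

/-!
# FDM: the cusp forms of level `N` are a finite dimensional space (MP_eadad4_nt)
-/

open scoped BigOperators

namespace Pool.Agent.DEN.H542

open Pool.Agent.DEN

variable {r : ℕ} {C : Matrix (Fin r) (Fin r) ℤ} {K : Type} [Field K]

/-- a finite set of orbits containing the support of every cusp form -/
theorem supp (hC : SimplyLaced C) [Finite K] {N : Polynomial K} (hN : N ≠ 0) :
    ∃ T : Set (MulAction.orbitRel.Quotient (cong C K 1 N) (XX C K)), T.Finite ∧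
      ∀ f : XX C K → ℂ, IsCusp N f → ∀ o, f o.out ≠ 0 → o ∈ T := by
  classical
  obtain ⟨-, -, hinj, -⟩ := H22.hRS r C hC
  let S : Set (Fin r → ℤ) := {l | ∀ i, 0 ≤ ip C (al i) l ∧ ip C (al i) l < (N.natDegree : ℤ) - 1}
  have hS : S.Finite := by
    have h1 : (Set.pi Set.univ fun _ : Fin r => Set.Ico (0:ℤ) ((N.natDegree : ℤ) - 1)).Finite :=
      Set.Finite.pi fun _ => Set.finite_Ico _ _
    refine Set.Finite.of_finite_image (f := fun l i => ip C (al i) l) (h1.subset ?_) ?_
    · rintro _ ⟨l, hl, rfl⟩ i _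
      exact hl i
    · intro l _ l' _ h
      exact hinj l l' fun i => congrFun h i
  let Q := (arith C K 1) ⧸ (cong C K 1 N).subgroupOf (arith C K 1)
  have hQ : Finite Q := by
    have h := (H22.hFin r C hC K).2.2 N hN
    have : ((cong C K 1 N).subgroupOf (arith C K 1)).FiniteIndex := ⟨h⟩
    exact Subgroup.finite_quotient_of_finiteIndex
  let gl : (Fin r → ℤ) → grp C K := fun l => if h : ∃ g, IsTor l g then h.choose else 1
  have hgl : ∀ l g, IsTor l g → gl l = g := by
    intro l g h
    have h' : ∃ g, IsTor (K := K) l g := ⟨g, h⟩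
    have : gl l = h'.choose := dif_pos h'
    rw [this]
    exact H38.isTor_unique h'.choose_spec h
  let Φ : (Fin r → ℤ) × Q → MulAction.orbitRel.Quotient (cong C K 1 N) (XX C K) :=
    fun p => Quotient.mk _ ((p.2.out : arith C K 1).1 • pt (gl p.1))
  refine ⟨Φ '' (S ×ˢ Set.univ), (hS.prod Set.finite_univ).image _, ?_⟩
  intro f hf o ho'
  obtain ⟨γ, hγ, l, g, hg, hl, hx⟩ := H22.hBir r C hC K o.out
  refine ⟨(l, (QuotientGroup.mk (⟨γ, hγ⟩ : arith C K 1) : Q)), ⟨?_, Set.mem_univ _⟩, ?_⟩
  · intro i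
    refine ⟨hl i, ?_⟩
    by_contra hcon
    push Not at hcon
    exact ho' (by rw [hx]; exact H22.hVan r C hC K N hN f hf γ hγ l g hg hl i hcon)
  · have e1 : o = Quotient.mk _ o.out := (Quotient.out_eq o).symm
    show (Quotient.mk _ (((QuotientGroup.mk (⟨γ, hγ⟩ : arith C K 1) : Q).out : arith C K 1).1 •
      pt (gl l))) = o
    rw [e1, hx, hgl l g hg]
    apply Quotient.sound
    show _ ∈ MulAction.orbit _ _
    set γ₀ : arith C K 1 := (QuotientGroup.mk (⟨γ, hγ⟩ : arith C K 1) : Q).out with hγ₀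
    have h1 : (QuotientGroup.mk γ₀ : Q) = QuotientGroup.mk (⟨γ, hγ⟩ : arith C K 1) :=
      Quotient.out_eq _
    rw [QuotientGroup.eq, Subgroup.mem_subgroupOf] at h1
    have h2 : (γ₀.1)⁻¹ * γ ∈ cong C K 1 N := h1
    have h3 := (H22.hNrm r C hC K 1 N one_ne_zero hN isCoprime_one_left).1 γ₀.1 γ₀.2 _ h2
    have h4 := inv_mem h3
    refine ⟨⟨_, h4⟩, ?_⟩
    show (γ₀.1 * ((γ₀.1)⁻¹ * γ) * (γ₀.1)⁻¹)⁻¹ • γ • pt g = γ₀.1 • pt g
    rw [smul_smul]
    congr 1
    group

lemma cusp_zero (N : Polynomial K) : IsCusp N (0 : XX C K → ℂ) := by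
  refine ⟨fun γ _ x => rfl, ?_⟩
  intro i γ _ x V _ _ _
  simp

lemma cusp_add {N : Polynomial K} {f g : XX C K → ℂ} (hf : IsCusp N f) (hg : IsCusp N g) :
    IsCusp N (f + g) := by
  refine ⟨fun γ hγ x => by simp [hf.1 γ hγ x, hg.1 γ hγ x], ?_⟩
  intro i γ hγ x V h1 h2 h3
  have e1 := hf.2 i γ hγ x V h1 h2 h3
  have e2 := hg.2 i γ hγ x V h1 h2 h3
  simp only [Pi.add_apply]
  rw [finsum_mem_add_distrib h3, e1, e2, add_zero]

lemma cusp_smul {N : Polynomial K} {f : XX C K → ℂ} (c : ℂ) (hf : IsCusp N f) :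
    IsCusp N (c • f) := by
  refine ⟨fun γ hγ x => by simp [hf.1 γ hγ x], ?_⟩
  intro i γ hγ x V h1 h2 h3
  have e1 := hf.2 i γ hγ x V h1 h2 h3
  simp only [Pi.smul_apply, smul_eq_mul]
  rw [finsum_mem_eq_finite_toFinset_sum _ h3] at e1 ⊢
  rw [← Finset.mul_sum, e1, mul_zero]

variable (C) in
/-- the space of cusp forms -/
def cuspSub (N : Polynomial K) : Submodule ℂ (XX C K → ℂ) where
  carrier := {f | IsCusp N f}
  zero_mem' := cusp_zero N
  add_mem' := fun hf hg => cusp_add hf hg
  smul_mem' := fun c _ hf => cusp_smul c hf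

lemma span_eq (N : Polynomial K) :
    Submodule.span ℂ {f : XX C K → ℂ | IsCusp N f} = cuspSub C N :=
  Submodule.span_eq (cuspSub C N)

lemma eq_zero_of_out {N : Polynomial K} {f : XX C K → ℂ} (hf : IsCusp N f)
    (h : ∀ o : MulAction.orbitRel.Quotient (cong C K 1 N) (XX C K), f o.out = 0) : f = 0 := by
  funext x
  have h1 := h (Quotient.mk _ x)
  have h2 : (Quotient.mk (MulAction.orbitRel (cong C K 1 N) (XX C K)) x).out ∈
      MulAction.orbit (cong C K 1 N) x := by
    have := Quotient.mk_out (s := MulAction.orbitRel (cong C K 1 N) (XX C K)) x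
    exact this
  obtain ⟨γ, hγ⟩ := h2
  have h3 := hf.1 γ.1 γ.2 x
  have h4 : γ.1 • x = (Quotient.mk (MulAction.orbitRel (cong C K 1 N) (XX C K)) x).out := hγ
  rw [h4] at h3
  rw [← h3]
  exact h1

theorem fdm : FdmStmt := by
  classical
  intro r C hC K _ _ N hN
  rw [span_eq]
  obtain ⟨T, hT, hsupp⟩ := supp (C := C) hC hN
  have hfin : Module.Finite ℂ (cuspSub C N) := by
    have : Finite T := hT
    let φ : (cuspSub C N) →ₗ[ℂ] (T → ℂ) :=
      { toFun := fun f o => f.1 o.1.out
        map_add' := fun _ _ => rfl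
        map_smul' := fun _ _ => rfl }
    refine Module.Finite.of_injective φ ?_
    rw [← LinearMap.ker_eq_bot, LinearMap.ker_eq_bot']
    intro f hf
    apply Subtype.ext
    refine eq_zero_of_out f.2 ?_
    intro o
    by_contra h
    have ho := hsupp f.1 f.2 o h
    exact h (congrFun hf ⟨o, ho⟩)
  refine ⟨fun f => Iff.rfl, hfin, ?_⟩
  intro n f hf horth
  have hli : LinearIndependent ℂ (fun j : Fin n => (⟨f j, hf j⟩ : cuspSub C N)) := by
    rw [Fintype.linearIndependent_iff]
    intro c hc i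
    have h0 : ∀ x, ∑ j, c j * f j x = 0 := by
      intro x
      have := congrArg (fun F : cuspSub C N => F.1 x) hc
      simpa using this
    have key : ∀ j, petersson N (f i) (f j) = ∑ o ∈ hT.toFinset,
        (starRingEnd ℂ) (f i o.out) * f j o.out /
          Nat.card (MulAction.stabilizer (cong C K 1 N) o.out) := by
      intro j
      unfold petersson
      refine finsum_eq_sum_of_support_subset _ ?_
      intro o ho
      rw [Set.Finite.coe_toFinset]
      refine hsupp (f j) (hf j) o ?_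
      intro h
      apply ho
      simp [h]
    have h1 : ∑ j, c j * petersson N (f i) (f j) = 0 := by
      simp only [key, Finset.mul_sum]
      rw [Finset.sum_comm]
      refine Finset.sum_eq_zero fun o _ => ?_
      have h2 := h0 o.out
      calc ∑ j, c j * ((starRingEnd ℂ) (f i o.out) * f j o.out /
            Nat.card (MulAction.stabilizer (cong C K 1 N) o.out))
          = (starRingEnd ℂ) (f i o.out) /
            Nat.card (MulAction.stabilizer (cong C K 1 N) o.out) * ∑ j, c j * f j o.out := by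
            rw [Finset.mul_sum]
            refine Finset.sum_congr rfl fun j _ => ?_
            ring
        _ = 0 := by rw [h2, mul_zero]
    simp only [horth, mul_ite, mul_one, mul_zero] at h1
    simpa using h1
  have := hli.fintype_card_le_finrank
  simpa using this

end Pool.Agent.DEN.H542
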