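import Pool.Agent.Helper22_DEN2.Stmt

/-!
# LOW: the lower bound for the number of cusp forms (MP_eadad4_nt), assembly
-/

open scoped BigOperators

namespace Pool.Agent.DEN.H542

open Pool.Agent.DEN

theorem low (hchr : ChrStmt) (hcsp : CspStmt) (hfre : FreStmt) (hfam : FamStmt) (hidx : IdxStmt)
    (hfdm : FdmStmt) : LowStmt := by
  intro r C hC K _ _ P N hP hN hPN
  obtain ⟨Q, hQ⟩ := hPN
  have hP0 : P ≠ 0 := hP.ne_zero
  obtain ⟨M, hM⟩ : ∃ M, M = P ^ 2 * Q := ⟨_, rfl⟩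
  have hNM : M * P ^ 2 = N := by rw [hM, hQ]; ring
  have hM0 : M ≠ 0 := by
    rintro h
    rw [h, zero_mul] at hNM
    exact hN hNM.symm
  have hPM : P ^ 2 ∣ M := ⟨Q, hM⟩
  have hdegP : 0 < P.natDegree := by
    rw [Nat.pos_iff_ne_zero]
    intro h
    have h1 := Polynomial.eq_C_of_natDegree_eq_zero h
    apply hP.not_isUnit
    rw [h1, Polynomial.isUnit_C]
    rw [isUnit_iff_ne_zero]
    intro h2
    rw [h2, Polynomial.C_0] at h1
    exact hP0 h1
  have hdegM : 0 < M.natDegree := by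
    have h1 : (P ^ 2).natDegree ≤ M.natDegree := Polynomial.natDegree_le_of_dvd hPM hM0
    rw [Polynomial.natDegree_pow] at h1
    omega
  obtain ⟨ψ, hψ1, hψ2, hψ3, hψ4⟩ := hchr r C hC K P M hP hM0 hPM
  rw [hNM] at hψ3
  have hnM := (H22.hNrm r C hC K 1 M one_ne_zero hM0 isCoprime_one_left).1
  have hnN := (H22.hNrm r C hC K 1 N one_ne_zero hN isCoprime_one_left).1
  have hle1 : cong C K 1 N ≤ cong C K 1 M := fun a ha => (hψ3 a ha).1
  have hle2 : cong C K 1 M ≤ arith C K 1 := fun a ha => ha.1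
  have hstab := (H22.hFin r C hC K).1 (pt (1 : grp C K))
  obtain ⟨n, f, hn, hf1, hf2⟩ := hfam (grp C K) (XX C K) (arith C K 1) (cong C K 1 M)
    (cong C K 1 N) (pt (1 : grp C K)) hle1 hle2 hnN hnM
    ((H22.hFin r C hC K).2.2 N hN) hstab
    (fun γ hγ g hg h => hfre r C hC K M hdegM γ hγ g hg h) ψ hψ1 hψ2 (fun a ha => (hψ3 a ha).2)
  have hcusp : ∀ j, IsCusp N (f j) := fun j =>
    hcsp r C hC K M N hM0 hN ψ hψ1 hψ3 hψ4 (f j) (hf1 j)
  have hle := (hfdm r C hC K N hN).2.2 n f hcusp (fun i j => hf2 i j)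
  obtain ⟨hi1, hi2⟩ := hidx r C hC K
  have hi := hi1 P M hP0 hM0 hPM
  rw [hNM] at hi
  rw [← Subgroup.relIndex_mul_relIndex _ _ _ hle1 hle2]
  calc (cong C K 1 N).relIndex (cong C K 1 M) * (cong C K 1 M).relIndex (arith C K 1)
      ≤ Nat.card K ^ (2 * P.natDegree * (r + Nat.card (Rt C)) ^ 2) *
        (Nat.card K ^ (r + Nat.card (Rt C)) ^ 2 *
          Module.finrank ℂ (Submodule.span ℂ {f : XX C K → ℂ | IsCusp N f})) :=
        Nat.mul_le_mul hi (hn.trans (Nat.mul_le_mul hi2 hle))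
    _ = _ := by
      rw [← mul_assoc, ← pow_add]
      congr 2
      ring

end Pool.Agent.DEN.H542
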